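import Pool.Agent.Helper27.REC.StmtsT

/-!
# REC, part 15: row ALG (from XDS, XLF, FRK)   [helper92]
-/

set_option autoImplicit false

open scoped Classical
open NumberField Polynomial

namespace REC

open MU

namespace ALGx

/-! ## Homomorphisms from the `l`-adic integers -/

theorem theta_inj {l : ℕ} [Fact l.Prime] {Ω : Type} [Field Ω] [CharZero Ω]
    (ϑ : ℤ_[l] →+* Ω) : Function.Injective ϑ := by
  rw [injective_iff_map_eq_zero]
  intro x hx
  by_contra hne
  have h1 := PadicInt.unitCoeff_spec hne
  have h2 : ϑ (PadicInt.unitCoeff hne : ℤ_[l]) * (l : Ω) ^ x.valuation = 0 := by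
    rw [← hx]
    conv_rhs => rw [h1]
    rw [map_mul, map_pow, map_natCast]
  have h3 : ϑ (PadicInt.unitCoeff hne : ℤ_[l]) ≠ 0 :=
    ((PadicInt.unitCoeff hne).isUnit.map ϑ).ne_zero
  have h4 : (l : Ω) ≠ 0 := by
    exact_mod_cast (Fact.out : l.Prime).ne_zero
  exact (mul_ne_zero h3 (pow_ne_zero _ h4)) h2

theorem exists_frac {l : ℕ} [Fact l.Prime] {Ω : Type} [Field Ω] [CharZero Ω]
    (ϑ : ℤ_[l] →+* Ω) : ∃ κ : ℚ_[l] →+* Ω, ∀ a : ℤ_[l], κ (algebraMap ℤ_[l] ℚ_[l] a) = ϑ a :=
  ⟨IsFractionRing.lift (theta_inj ϑ), fun x => IsFractionRing.lift_algebraMap (theta_inj ϑ) x⟩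

theorem exists_res {l : ℕ} [Fact l.Prime] {Ω : Type} [Field Ω] (ϑ : ℤ_[l] →+* Ω)
    (h : (l : Ω) = 0) : ∃ κ : ZMod l →+* Ω, ∀ a : ℤ_[l], κ (PadicInt.toZMod a) = ϑ a := by
  have hs : Function.Surjective (PadicInt.toZMod (p := l)) := ZMod.ringHom_surjective _
  have hk : RingHom.ker (PadicInt.toZMod (p := l)) ≤ RingHom.ker ϑ := by
    intro a ha
    rw [PadicInt.ker_toZMod, PadicInt.maximalIdeal_eq_span_p, Ideal.mem_span_singleton] at ha
    obtain ⟨b, rfl⟩ := ha
    rw [RingHom.mem_ker, map_mul, map_natCast, h, zero_mul]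
  refine ⟨RingHom.liftOfSurjective (PadicInt.toZMod (p := l)) hs ⟨ϑ, hk⟩, fun a => ?_⟩
  exact RingHom.liftOfRightInverse_comp_apply _ _ _ ⟨ϑ, hk⟩ a

/-! ## Semisimple modules -/

section

variable {G k ι ι' : Type} [Field k] [Fintype ι] [Fintype ι']

/-- column vectors, with the action of the free algebra -/
def Md (_r : G → Matrix ι ι k) : Type := ι → k

instance (r : G → Matrix ι ι k) : AddCommGroup (Md r) := inferInstanceAs (AddCommGroup (ι → k))

/-- the action of the free algebra -/
noncomputable def act (r : G → Matrix ι ι k) : FreeAlgebra k G →ₐ[k] Module.End k (ι → k) :=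
  FreeAlgebra.lift k (fun g => (r g).mulVecLin)

theorem act_ι (r : G → Matrix ι ι k) (g : G) (x : ι → k) :
    act r (FreeAlgebra.ι k g) x = (r g).mulVec x := by
  rw [act, FreeAlgebra.lift_ι_apply, Matrix.mulVecLin_apply]

theorem act_alg (r : G → Matrix ι ι k) (c : k) (x : ι → k) :
    act r (algebraMap k (FreeAlgebra k G) c) x = c • x := by
  rw [AlgHom.commutes]
  rfl

noncomputable instance (r : G → Matrix ι ι k) : Module (FreeAlgebra k G) (Md r) :=
  Module.compHom (ι → k) (act r).toRingHom

theorem smul_def' (r : G → Matrix ι ι k) (a : FreeAlgebra k G) (x : Md r) :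
    a • x = act r a x := rfl

theorem act_mem {r : G → Matrix ι ι k} {W : Submodule k (ι → k)}
    (hW : ∀ g, ∀ x ∈ W, (r g).mulVec x ∈ W) (a : FreeAlgebra k G) : ∀ x ∈ W, act r a x ∈ W := by
  induction a using FreeAlgebra.induction with
  | grade0 c =>
    intro x hx
    rw [act_alg]
    exact W.smul_mem c hx
  | grade1 g =>
    intro x hx
    rw [act_ι]
    exact hW g x hx
  | mul a b ha hb =>
    intro x hx
    rw [map_mul]
    exact ha _ (hb _ hx)
  | add a b ha hb =>
    intro x hx
    rw [map_add]
    exact W.add_mem (ha _ hx) (hb _ hx)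

theorem act_comm {r : G → Matrix ι ι k} {s : G → Matrix ι' ι' k} (u : Matrix ι' ι k)
    (hu : ∀ g, u * r g = s g * u) (a : FreeAlgebra k G) :
    ∀ x, u.mulVec (act r a x) = act s a (u.mulVec x) := by
  induction a using FreeAlgebra.induction with
  | grade0 c =>
    intro x
    rw [act_alg, act_alg, Matrix.mulVec_smul]
  | grade1 g =>
    intro x
    rw [act_ι, act_ι, Matrix.mulVec_mulVec, hu, Matrix.mulVec_mulVec]
  | mul a b ha hb =>
    intro x
    rw [map_mul, map_mul]
    show u.mulVec (act r a (act r b x)) = act s a (act s b (u.mulVec x))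
    rw [ha, hb]
  | add a b ha hb =>
    intro x
    rw [map_add, map_add]
    show u.mulVec (act r a x + act r b x) = act s a (u.mulVec x) + act s b (u.mulVec x)
    rw [Matrix.mulVec_add, ha, hb]

/-- equivariant matrices are linear maps -/
noncomputable def mp {r : G → Matrix ι ι k} {s : G → Matrix ι' ι' k} (u : Matrix ι' ι k)
    (hu : ∀ g, u * r g = s g * u) : Md r →ₗ[FreeAlgebra k G] Md s where
  toFun := fun x => u.mulVec x
  map_add' := fun x y => Matrix.mulVec_add u x y
  map_smul' := fun a x => act_comm u hu a x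

theorem mp_apply {r : G → Matrix ι ι k} {s : G → Matrix ι' ι' k} (u : Matrix ι' ι k)
    (hu : ∀ g, u * r g = s g * u) (x : Md r) : mp u hu x = u.mulVec x := rfl

/-- stable subspaces are submodules -/
noncomputable def sb {r : G → Matrix ι ι k} (W : Submodule k (ι → k))
    (hW : ∀ g, ∀ x ∈ W, (r g).mulVec x ∈ W) : Submodule (FreeAlgebra k G) (Md r) where
  carrier := {x | (x : ι → k) ∈ W}
  add_mem' := fun ha hb => W.add_mem ha hb
  zero_mem' := W.zero_mem
  smul_mem' := fun a _ hx => act_mem hW a _ hx

/-- completely reducible matrix representations are semisimple modules -/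
theorem ss_md {r : G → Matrix ι ι k} (h : SSx r) :
    IsSemisimpleModule (FreeAlgebra k G) (Md r) := by
  rw [isSemisimpleModule_iff]
  refine ⟨fun W => ?_⟩
  let W' : Submodule k (ι → k) :=
    { carrier := {x | (show Md r from x) ∈ W}
      add_mem' := fun {a b} ha hb => W.add_mem (x := (show Md r from a)) (y := (show Md r from b))
        ha hb
      zero_mem' := W.zero_mem
      smul_mem' := fun c x hx => by
        have h1 := W.smul_mem (algebraMap k (FreeAlgebra k G) c) hx
        rw [smul_def'] at h1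
        rw [← act_alg r c x]
        exact h1 }
  obtain ⟨e, he1, he2, he3⟩ := h W' (fun g x hx => by
    have h1 := W.smul_mem (FreeAlgebra.ι k g) hx
    rw [smul_def'] at h1
    rw [← act_ι r g x]
    exact h1)
  refine ⟨LinearMap.ker (mp e he1), ?_⟩
  rw [isCompl_iff, Submodule.disjoint_def, Submodule.codisjoint_iff_exists_add_eq]
  constructor
  · intro x hx hex
    have h1 : e.mulVec x = 0 := hex
    rw [he3 x hx] at h1
    exact h1
  · intro x
    let y : Md r := e.mulVec x
    refine ⟨y, x - y, he2 x, ?_, ?_⟩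
    · have h2 : ∀ x' : ι → k, e.mulVec (x' - e.mulVec x') = 0 := fun x' => by
        rw [Matrix.mulVec_sub, he3 _ (he2 x'), sub_self]
      exact h2 x
    · exact add_sub_cancel _ _

/-- semisimple modules are completely reducible matrix representations -/
theorem md_ss {r : G → Matrix ι ι k} (h : IsSemisimpleModule (FreeAlgebra k G) (Md r)) :
    SSx r := by
  intro W hW
  obtain ⟨V, hV⟩ := exists_isCompl (sb W hW)
  let p : Md r →ₗ[FreeAlgebra k G] Md r :=
    (sb W hW).subtype ∘ₗ (sb W hW).projectionOnto V hV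
  have hp1 : ∀ x, p x ∈ sb W hW := fun x => ((sb W hW).projectionOnto V hV x).2
  have hp2 : ∀ x ∈ sb W hW, p x = x := fun x hx => by
    show (((sb W hW).projectionOnto V hV x : sb W hW) : Md r) = x
    have := Submodule.projectionOnto_apply_left hV ⟨x, hx⟩
    rw [this]
  let f : (ι → k) →ₗ[k] (ι → k) :=
    { toFun := fun x => p x
      map_add' := fun x y => p.map_add (show Md r from x) (show Md r from y)
      map_smul' := fun c x => by
        have h1 := p.map_smul (algebraMap k (FreeAlgebra k G) c) (show Md r from x)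
        rw [smul_def', smul_def', act_alg, act_alg] at h1
        exact h1 }
  have hf : ∀ x, (LinearMap.toMatrix' f).mulVec x = p x := fun x => by
    rw [LinearMap.toMatrix'_mulVec]
    rfl
  refine ⟨LinearMap.toMatrix' f, fun g => ?_, fun x => ?_, fun x hx => ?_⟩
  · apply Matrix.toLin'.injective
    apply LinearMap.ext
    intro x
    rw [Matrix.toLin'_apply, Matrix.toLin'_apply, ← Matrix.mulVec_mulVec, ← Matrix.mulVec_mulVec,
      hf, hf]
    have h1 := p.map_smul (FreeAlgebra.ι k g) (show Md r from x)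
    rw [smul_def', smul_def', act_ι, act_ι] at h1
    exact h1
  · rw [hf]
    exact hp1 x
  · rw [hf]
    exact hp2 x hx

/-- direct summands of direct sums of completely reducible representations -/
theorem ss_sum [DecidableEq ι] {Z : Type} [Fintype Z] {I : Z → Type} [∀ z, Fintype (I z)] (r : G → Matrix ι ι k)
    (T : ∀ z, G → Matrix (I z) (I z) k) (P : ∀ z, Matrix (I z) ι k) (Q : ∀ z, Matrix ι (I z) k)
    (N : k) (hN : N ≠ 0) (hPQ : ∑ z, Q z * P z = N • (1 : Matrix ι ι k))
    (hP : ∀ z g, P z * r g = T z g * P z) (hT : ∀ z, SSx (T z)) : SSx r := by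
  apply md_ss
  have : ∀ z, IsSemisimpleModule (FreeAlgebra k G) (Md (T z)) := fun z => ss_md (hT z)
  let f : Md r →ₗ[FreeAlgebra k G] (∀ z, Md (T z)) := LinearMap.pi fun z => mp (P z) (hP z)
  apply IsSemisimpleModule.of_injective f
  rw [injective_iff_map_eq_zero]
  intro x hx
  have h1 : ∀ z, (P z).mulVec x = 0 := fun z => congrFun hx z
  have h2 : (∑ z, Q z * P z).mulVec x = 0 := by
    rw [Matrix.sum_mulVec]
    apply Finset.sum_eq_zero
    intro z _
    rw [← Matrix.mulVec_mulVec, h1, Matrix.mulVec_zero]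
  rw [hPQ, Matrix.smul_mulVec, Matrix.one_mulVec] at h2
  exact (smul_eq_zero.1 h2).resolve_left hN

end

/-- the two notions of complete reducibility -/
theorem isSS_of_SSx {G k : Type} [Group G] [Field k] {n : ℕ}
    (r : G →* Matrix (Fin n) (Fin n) k) (h : SSx (fun g => r g)) : IsSS r := by
  rintro m B A ⟨⟨C, hC⟩, hBA⟩
  obtain ⟨e, he1, he2, he3⟩ := h (LinearMap.range B.mulVecLin) (by
    rintro g x ⟨y, rfl⟩
    refine ⟨(A g).mulVec y, ?_⟩
    rw [Matrix.mulVecLin_apply, Matrix.mulVecLin_apply, Matrix.mulVec_mulVec, ← hBA,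
      Matrix.mulVec_mulVec])
  have h1 : e * B = B := by
    apply Matrix.toLin'.injective
    apply LinearMap.ext
    intro x
    rw [Matrix.toLin'_apply, Matrix.toLin'_apply, ← Matrix.mulVec_mulVec]
    exact he3 _ ⟨x, rfl⟩
  have h2 : B * (C * e) = e := by
    apply Matrix.toLin'.injective
    apply LinearMap.ext
    intro x
    rw [Matrix.toLin'_apply, Matrix.toLin'_apply]
    obtain ⟨y, hy⟩ := he2 x
    rw [Matrix.mulVecLin_apply] at hy
    rw [← Matrix.mulVec_mulVec, ← Matrix.mulVec_mulVec, ← hy, Matrix.mulVec_mulVec y C B, hC,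
      Matrix.one_mulVec]
  refine ⟨C * e, ?_, fun g => ?_⟩
  · rw [Matrix.mul_assoc, h1, hC]
  · calc C * e * r g = C * (e * r g) := by rw [Matrix.mul_assoc]
      _ = C * (r g * e) := by rw [he1 g]
      _ = C * (r g * (B * (C * e))) := by rw [h2]
      _ = C * (r g * B) * (C * e) := by simp only [Matrix.mul_assoc]
      _ = (C * B) * A g * (C * e) := by rw [hBA]; simp only [Matrix.mul_assoc]
      _ = A g * (C * e) := by rw [hC, Matrix.one_mul]

end ALGx

open ALGx

/-- ALG -/
theorem ALG (hXDS : ST_XDS) (hXLF : ST_XLF) (hFRK : ST_FRK) : ST_ALG := by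
  intro l _ K _ _ A ϑ hl G Z _ _ I _ T n μ P Q N hN hPQ hT hSS hlift
  let π : A →+* IsLocalRing.ResidueField A := IsLocalRing.residue A
  let r : G →* Matrix (Fin n) (Fin n) A :=
    (ϑ.mapMatrix (m := Fin n)).toMonoidHom.comp ((Units.coeHom _).comp μ)
  have hr : ∀ g, r g = (μ g : Matrix (Fin n) (Fin n) ℤ_[l]).map ϑ := fun g => rfl
  obtain ⟨κ₀, hκ₀⟩ := exists_res (π.comp ϑ) hl
  obtain ⟨κ₁, hκ₁⟩ := exists_frac (A.subtype.comp ϑ)
  have e0 : mapk κ₀ (res μ) = mapr π r := by
    ext g i j
    exact hκ₀ _
  have e1 : mapk κ₁ (rat μ) = mapr A.subtype r := by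
    ext g i j
    exact hκ₁ _
  have hP : ∀ z g, P z * r g = T z g * P z := fun z g => (hT z g).1
  have hQ : ∀ z g, r g * Q z = Q z * T z g := fun z g => (hT z g).2
  have hPm : ∀ z g, (P z).map π * mapr π r g = (T z g).map π * (P z).map π := fun z g => by
    have h1 := congrArg (fun X : Matrix (I z) (Fin n) A => X.map π) (hP z g)
    simp only [Matrix.map_mul] at h1
    exact h1
  have hQm : ∀ z g, mapr π r g * (Q z).map π = (Q z).map π * (T z g).map π := fun z g => by
    have h1 := congrArg (fun X : Matrix (Fin n) (I z) A => X.map π) (hQ z g)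
    simp only [Matrix.map_mul] at h1
    exact h1
  have hPQm : ∑ z, (Q z).map π * (P z).map π =
      π N • (1 : Matrix (Fin n) (Fin n) (IsLocalRing.ResidueField A)) := by
    have h1 := congrArg (fun X : Matrix (Fin n) (Fin n) A => π.mapMatrix X) hPQ
    rw [map_sum] at h1
    have h2 : π.mapMatrix (N • (1 : Matrix (Fin n) (Fin n) A)) =
        π N • (1 : Matrix (Fin n) (Fin n) (IsLocalRing.ResidueField A)) := by
      ext i j
      rw [RingHom.mapMatrix_apply, Matrix.map_apply, Matrix.smul_apply, Matrix.smul_apply,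
        smul_eq_mul, smul_eq_mul, map_mul, Matrix.one_apply, Matrix.one_apply]
      split_ifs
      · rw [map_one]
      · rw [map_zero]
    rw [h2] at h1
    rw [← h1]
    apply Finset.sum_congr rfl
    intro z _
    rw [RingHom.mapMatrix_apply, Matrix.map_mul]
  have hNm : π N ≠ 0 := (hN.map π).ne_zero
  refine ⟨?_, ?_⟩
  · -- complete reducibility
    refine (hXDS G (ZMod l) (IsLocalRing.ResidueField A) κ₀ n n (res μ) (res μ)).2 ?_
    rw [e0]
    apply isSS_of_SSx
    exact ss_sum (fun g => mapr π r g) (fun z g => (T z g).map π) (fun z => (P z).map π)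
      (fun z => (Q z).map π) (π N) hNm hPQm hPm hSS
  · -- lifting endomorphisms
    apply hXLF G n l μ
    rw [← (hXDS G (ZMod l) (IsLocalRing.ResidueField A) κ₀ n n (res μ) (res μ)).1,
      ← (hXDS G ℚ_[l] K κ₁ n n (rat μ) (rat μ)).1, e0, e1]
    apply hFRK G K A n r
    intro u hu
    have hu' : ∀ g, u * mapr π r g = mapr π r g * u := hu
    have hx : ∀ z z', ∃ x : Matrix (I z') (I z) A,
        x.map π = (P z').map π * u * (Q z).map π ∧ ∀ g, x * T z g = T z' g * x := by
      intro z z'
      refine hlift z z' _ fun g => ?_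
      show (P z').map π * u * (Q z).map π * (T z g).map π =
        (T z' g).map π * ((P z').map π * u * (Q z).map π)
      calc (P z').map π * u * (Q z).map π * (T z g).map π
          = (P z').map π * (u * (mapr π r g * (Q z).map π)) := by
            rw [hQm]; simp only [Matrix.mul_assoc]
        _ = (P z').map π * (u * mapr π r g) * (Q z).map π := by simp only [Matrix.mul_assoc]
        _ = ((P z').map π * mapr π r g) * (u * (Q z).map π) := by
            rw [hu']; simp only [Matrix.mul_assoc]
        _ = (T z' g).map π * ((P z').map π * u * (Q z).map π) := by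
            rw [hPm]; simp only [Matrix.mul_assoc]
    choose x hx1 hx2 using hx
    obtain ⟨N', hN'⟩ := hN.exists_left_inv
    refine ⟨(N' * N') • ∑ z, ∑ z', Q z' * x z z' * P z, ?_, fun g => ?_⟩
    · -- the reduction
      have h1 : ((N' * N') • ∑ z, ∑ z', Q z' * x z z' * P z).map π =
          (π N' * π N') • ∑ z, ∑ z', (Q z').map π * ((P z').map π * u * (Q z).map π) *
            (P z).map π := by
        have h2 : ∀ (c : A) (X : Matrix (Fin n) (Fin n) A), (c • X).map π = π c • X.map π := by
          intro c X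
          ext i j
          rw [Matrix.map_apply, Matrix.smul_apply, Matrix.smul_apply, Matrix.map_apply,
            smul_eq_mul, smul_eq_mul, map_mul]
        rw [h2, map_mul]
        congr 1
        rw [← RingHom.mapMatrix_apply, map_sum]
        apply Finset.sum_congr rfl
        intro z _
        rw [map_sum]
        apply Finset.sum_congr rfl
        intro z' _
        rw [RingHom.mapMatrix_apply, Matrix.map_mul, Matrix.map_mul, hx1]
      show ((N' * N') • ∑ z, ∑ z', Q z' * x z z' * P z).map π = u
      rw [h1]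
      have h3 : ∑ z, ∑ z', (Q z').map π * ((P z').map π * u * (Q z).map π) * (P z).map π =
          (∑ z', (Q z').map π * (P z').map π) * u * (∑ z, (Q z).map π * (P z).map π) := by
        rw [Finset.mul_sum]
        apply Finset.sum_congr rfl
        intro z _
        rw [Finset.sum_mul, Finset.sum_mul]
        apply Finset.sum_congr rfl
        intro z' _
        simp only [Matrix.mul_assoc]
      rw [h3, hPQm, Matrix.smul_mul, Matrix.one_mul, Matrix.mul_smul, Matrix.mul_one, smul_smul,
        smul_smul]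
      have h4 : π N' * π N = 1 := by rw [← map_mul, hN', map_one]
      rw [show π N' * π N' * π N * π N = (π N' * π N) * (π N' * π N) by ring, h4, one_mul,
        one_smul]
    · rw [Matrix.smul_mul, Matrix.mul_smul, Finset.sum_mul, Finset.mul_sum]
      congr 1
      apply Finset.sum_congr rfl
      intro z _
      rw [Finset.sum_mul, Finset.mul_sum]
      apply Finset.sum_congr rfl
      intro z' _
      calc Q z' * x z z' * P z * r g = Q z' * x z z' * (P z * r g) := by
            simp only [Matrix.mul_assoc]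
        _ = Q z' * (x z z' * T z g) * P z := by rw [hP]; simp only [Matrix.mul_assoc]
        _ = (Q z' * T z' g) * x z z' * P z := by rw [hx2]; simp only [Matrix.mul_assoc]
        _ = r g * (Q z' * x z z' * P z) := by rw [← hQ]; simp only [Matrix.mul_assoc]

end REC
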